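import Pool.Agent.helper92.ISA.Spec2
import Pool.Agent.helper80.ISO.DSP

set_option autoImplicit false

open Filter Topology

namespace Pool.Agent.ISA

open Pool.Agent.PB Pool.Agent.ISO

theorem DSQ_mono {M R : ℕ} {m' m : ℕ} {A : Set ℕ} {p : ℝ} {K : Fin M → Finset (Fin R)} (h : m' ≤ m)
    (hD : Dsg m' A p K) : Dsg m A p K :=
  ⟨fun e => ⟨(hD.1 e).1, ((hD.1 e).2).trans h⟩, hD.2⟩

theorem DSQ_proof (hQ : DNQ_stmt) : DSQ_stmt := by
  intro ε m A p hε hε2 hm hA1 hA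
  obtain ⟨C2, hC2⟩ := hQ ε hε
  filter_upwards [hA, DSP_log |C2| ε hε] with N h1 h3
  obtain ⟨hN, h3⟩ := h3
  have hN' : (1 : ℝ) ≤ N := by exact_mod_cast hN
  have hN0 : (0 : ℝ) < N := by linarith
  have hL : 0 ≤ Real.log N := Real.log_nonneg hN'
  obtain ⟨g1, g2, g3, g4⟩ := DSP_min (a := 1 - ε) (hm N) hN (by linarith) (by linarith)
  obtain ⟨m', hm'⟩ : ∃ m' : ℕ, m' = min (m N) ⌊(N : ℝ) ^ (1 - ε)⌋₊ := ⟨_, rfl⟩
  rw [← hm'] at g1 g2 g3 g4 h1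
  obtain ⟨M, R, K, k1, k2, k3, k4⟩ := hC2 m' (A N) (p N) g1 (hA1 N) h1
  have e3 : 0 < (N : ℝ) ^ (1 - ε) := Real.rpow_pos_of_pos hN0 _
  have e4 : (N : ℝ) ^ (1 - ε) * (N : ℝ) ^ (ε / 2) ≤ (N : ℝ) ^ (1 - ε / 2) := by
    rw [← Real.rpow_add hN0]
    exact Real.rpow_le_rpow_of_exponent_le hN' (by linarith)
  have e5 : (N : ℝ) ^ (1 - ε / 2) ≤ N := by
    calc (N : ℝ) ^ (1 - ε / 2) ≤ (N : ℝ) ^ (1 : ℝ) :=
          Real.rpow_le_rpow_of_exponent_le hN' (by linarith)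
      _ = N := Real.rpow_one _
  have main : |C2| * (m' : ℝ) * (1 + Real.log m') ^ 2 ≤ (N : ℝ) ^ (1 - ε / 2) := by
    calc |C2| * (m' : ℝ) * (1 + Real.log m') ^ 2
        ≤ |C2| * (N : ℝ) ^ (1 - ε) * (1 + Real.log N) ^ 2 := by
          refine mul_le_mul (mul_le_mul_of_nonneg_left g2 (abs_nonneg _)) ?_ (sq_nonneg _)
            (mul_nonneg (abs_nonneg _) e3.le)
          exact pow_le_pow_left₀ (by linarith) (by linarith) 2
      _ = (N : ℝ) ^ (1 - ε) * (|C2| * (1 + Real.log N) ^ 2) := by ring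
      _ ≤ (N : ℝ) ^ (1 - ε) * (N : ℝ) ^ (ε / 2) := mul_le_mul_of_nonneg_left h3 e3.le
      _ ≤ _ := e4
  have hmn : (0 : ℝ) ≤ m' := Nat.cast_nonneg _
  refine ⟨M, R, K, k1, ?_, ?_, ?_⟩
  · refine k2.trans (le_trans ?_ main)
    have e7 : 1 + Real.log m' ≤ (1 + Real.log m') ^ 2 := by nlinarith
    calc C2 * (m' : ℝ) * (1 + Real.log m') ≤ |C2| * (m' : ℝ) * (1 + Real.log m') := by
          apply mul_le_mul_of_nonneg_right _ (by linarith)
          exact mul_le_mul_of_nonneg_right (le_abs_self _) hmn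
      _ ≤ |C2| * (m' : ℝ) * (1 + Real.log m') ^ 2 :=
          mul_le_mul_of_nonneg_left e7 (mul_nonneg (abs_nonneg _) hmn)
  · have e6 : (R : ℝ) ≤ N := by
      refine k3.trans (le_trans ?_ (main.trans e5))
      have e7 : (1 : ℝ) ≤ (1 + Real.log m') ^ 2 := by nlinarith
      calc C2 * (m' : ℝ) ≤ |C2| * (m' : ℝ) :=
            mul_le_mul_of_nonneg_right (le_abs_self _) hmn
        _ = |C2| * (m' : ℝ) * 1 := by ring
        _ ≤ |C2| * (m' : ℝ) * (1 + Real.log m') ^ 2 :=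
            mul_le_mul_of_nonneg_left e7 (mul_nonneg (abs_nonneg _) hmn)
    exact_mod_cast e6
  · refine DSQ_mono ?_ k4
    rw [hm']
    exact min_le_left _ _

end Pool.Agent.ISA
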